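import Pool.Agent.H619.SB.RES

/-!
# MP_0069fb_gt: centrally symmetric bodies inside convex bodies of `ℝ³`

Every convex body `K` in `ℝ³` contains a centrally symmetric convex body of volume at least
`(77/200) |K| = 0.385 |K|`. The conjectured constant is `1/2`, the known one `2/9` (and `0.3023` from
Ball's volume ratio theorem).

Proof. Let `m(K) = max_c |K ∩ (c - K)|` and let `ρ` be the infimum of `m(K)/|K|`. If `Z = -Z` is
a convex body and `K_t = K ~ tZ = {x : x + tZ ⊆ K}`, then `m(K_t)^(1/3) + t |Z|^(1/3) ≤ m(K)^(1/3)` by the
Brunn-Minkowski inequality, and `|K_t| ≥ 2|K| - |K + tZ|`. So an almost extremal body satisfies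
`|K|² |Z| ≤ (ρ + o(1)) V(K,K,Z)³` for all symmetric `Z`. This is used with `Z = K - K`, with the
octahedron of a simplex which contains `K`, and with `Z = K - K + O/2`, `O` the octahedron of a
simplex contained in `K`; the two simplices come from Helly's theorem and are close to each other
if `V(K,K,-K)` is close to its maximum `3|K|`.
-/

set_option autoImplicit false

open MeasureTheory Set

noncomputable section

namespace Pool.Agent.Results.MP_0069fb_gt.AllBodies

/-- three-dimensional space -/
abbrev R3 : Type := EuclideanSpace ℝ (Fin 3)

/-- convex bodies: compact convex sets with nonempty interior -/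
def IsConvexBody (K : Set R3) : Prop := IsCompact K ∧ Convex ℝ K ∧ (interior K).Nonempty

/-- centrally symmetric about some point -/
def CentrallySymmetric (C : Set R3) : Prop := ∃ c : R3, ∀ x ∈ C, (2 : ℝ) • c - x ∈ C

/-- **Main theorem.** -/
theorem result :
    ∀ K : Set R3, IsConvexBody K → ∃ C : Set R3, IsConvexBody C ∧ C ⊆ K ∧ CentrallySymmetric C ∧
      77 * volume K ≤ 200 * volume C :=
  Pool.Agent.H619.SB.RES.all

end Pool.Agent.Results.MP_0069fb_gt.AllBodies

end
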