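import Pool.Agent.H619.SB.RES

/-!
# MP_0069fb_gt: the conjecture for polytopes with at most five vertices

Polytopes in `ℝ³` with at most five vertices contain a centrally symmetric convex body of at least half
their volume, and for a tetrahedron the largest volume of a centrally symmetric subset is exactly
half of the volume.
-/

set_option autoImplicit false

open MeasureTheory Set

noncomputable section

namespace Pool.Agent.Results.MP_0069fb_gt.FiveVertices

/-- three-dimensional space -/
abbrev R3 : Type := EuclideanSpace ℝ (Fin 3)

/-- convex bodies: compact convex sets with nonempty interior -/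
def IsConvexBody (K : Set R3) : Prop := IsCompact K ∧ Convex ℝ K ∧ (interior K).Nonempty

/-- centrally symmetric about some point -/
def CentrallySymmetric (C : Set R3) : Prop := ∃ c : R3, ∀ x ∈ C, (2 : ℝ) • c - x ∈ C

/-- **Main theorem.** -/
theorem result :
    (∀ w : Fin 5 → R3, (interior (convexHull ℝ (range w))).Nonempty →
      ∃ C : Set R3, IsConvexBody C ∧ C ⊆ convexHull ℝ (range w) ∧ CentrallySymmetric C ∧
        volume (convexHull ℝ (range w)) ≤ 2 * volume C) ∧
    (∀ p : Fin 4 → R3, AffineIndependent ℝ p →
      (∀ C : Set R3, C ⊆ convexHull ℝ (range p) → CentrallySymmetric C →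
        2 * volume C ≤ volume (convexHull ℝ (range p))) ∧
      ∃ C : Set R3, IsConvexBody C ∧ C ⊆ convexHull ℝ (range p) ∧ CentrallySymmetric C ∧
        2 * volume C = volume (convexHull ℝ (range p))) :=
  ⟨Pool.Agent.H619.SB.RES.few, Pool.Agent.H619.SB.RES.tetra⟩

end Pool.Agent.Results.MP_0069fb_gt.FiveVertices

end
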